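import Pool.Agent.Helper750.DC.Core
import Pool.Agent.Helper750.DC.Env
import Pool.Agent.Helper750.DC.FO
import Pool.Agent.Helper750.DC.Fkm

set_option autoImplicit false

/-!
Some d.c.e. degree is the degree of categoricity of a computable structure but not the degree of
decidable categoricity of any decidable structure.
-/

namespace Pool.Agent.Results.MP_95a9c1_lc.DceNotDecidable

open Pool.Agent.Helper750.DC Pool.Agent.Helper446

/-- A decidable structure in a computable language is computable. (Not used below; a check of the
definitions.) -/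
theorem computable_of_decidable (L : Lang) (hL : L.IsComputable) (S : Str)
    (hS : IsDecidableStr L S) : IsComputableStr L S := by
  classical
  obtain ⟨d, hd, h⟩ := hS
  obtain ⟨_, hfn⟩ := hL
  have key : ∀ xs ys : List ℕ, ((List.range xs.length).map fun i => (xs ++ ys).getD i 0) = xs := by
    intro xs ys
    apply List.ext_getElem
    · simp
    · intro r h1 h2
      simp [List.getD_eq_getElem?_getD, List.getElem?_append_left h2, h2]
  refine ⟨⟨fun p => d ((Fml.rel p.1 (List.range p.2.length)).code, p.2), ?_, ?_⟩, ?_⟩
  · refine hd.comp ?_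
    simp only [Fml.code]
    fun_prop
  · intro i xs hi
    have h1 := h (Fml.rel i (List.range xs.length)) xs
    have h2 := key xs []
    rw [List.append_nil] at h2
    simp only [Sat, List.length_range, h2, hi, true_and] at h1
    exact h1
  · let F : ℕ × List ℕ → ℕ := fun p => if L.fn p.1 = some p.2.length then S.F p.1 p.2 else 0
    refine ⟨F, ?_, fun i xs hi => by simp only [F]; rw [if_pos hi]⟩
    have hc : Computable fun x : (ℕ × List ℕ) × ℕ => L.fn x.1.1 :=
      hfn.comp (Computable.fst.comp Computable.fst)
    have h1 : ComputablePred fun x : (ℕ × List ℕ) × ℕ => L.fn x.1.1 = some x.1.2.length :=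
      RE.cp_eq hc (by fun_prop)
    have h2 : ComputablePred fun x : (ℕ × List ℕ) × ℕ =>
        d ((Fml.fn x.1.1 (List.range x.1.2.length) x.1.2.length).code, x.1.2 ++ [x.2]) = true := by
      refine cp_bool (hd.comp ?_)
      simp only [Fml.code]
      fun_prop
    have h3 : ComputablePred fun x : (ℕ × List ℕ) × ℕ => x.2 = 0 :=
      RE.cp_eq (by fun_prop) (by fun_prop)
    refine RE.computable_of_graph ((cp_or (cp_and h1 h2) (cp_and (cp_not h1) h3)).to_re.of_eq
      fun x => ?_)
    obtain ⟨⟨i, xs⟩, y⟩ := x
    have h4 := h (Fml.fn i (List.range xs.length) xs.length) (xs ++ [y])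
    have h5 : (xs ++ [y]).getD xs.length 0 = y := by
      simp [List.getD_eq_getElem?_getD]
    simp only [Sat, List.length_range, key xs [y], h5] at h4
    simp only [F, h4]
    by_cases h6 : L.fn i = some xs.length
    · rw [if_pos h6]
      tauto
    · rw [if_neg h6]
      constructor
      · rintro (h7 | h7)
        · exact absurd h7.1 h6
        · exact h7.2.symm
      · intro h7
        exact Or.inr ⟨h6, h7.symm⟩

/-- Some d.c.e. degree (the degree of `A \ B`) is the degree of categoricity of a computable
structure, but it is not the degree of decidable categoricity of any decidable structure. -/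
theorem result : ∃ A B : Set ℕ, REPred (· ∈ A) ∧ REPred (· ∈ B) ∧
    (∃ (L : Lang) (S : Str), L.IsComputable ∧ IsDegCat L S (chi (A \ B))) ∧
    ¬ ∃ (L : Lang) (S : Str), L.IsComputable ∧ IsDegDecCat L S (chi (A \ B)) := by
  obtain ⟨E, D, hE⟩ := env_exists
  obtain ⟨A, B, hA, hB, rfl⟩ := hE.dce
  refine ⟨A, B, hA, hB, fkm A B hA hB, ?_⟩
  rintro ⟨L, S, hL, hS, h1, h2⟩
  obtain ⟨T, hT⟩ := fo L hL S hS
  exact core T E _ hE ((hT _).1 h1) fun X hX => h2 X ((hT X).2 hX)

end Pool.Agent.Results.MP_95a9c1_lc.DceNotDecidable
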